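import Mathlib

/-!
# MP_31abd3: the functional volume product is not monotone along the Fokker-Planck flow

We give a function `f ≥ 0` on the real line, whose polar `f°(y) = exp (-40 |y|)` is even, and times
`0 < t₁ < t₂` with `∫ f_{t₁} ∫ (f_{t₁})° > ∫ f_{t₂} ∫ (f_{t₂})°`.

The function is the indicator function of `[-40, -40 + δ] ∪ [30, 40]` with a very small `δ > 0`.
The small interval makes `f°` even.  At the time `t₁ = log 10` the function `f_{t₁}` is, up to a
negligible part, a Gaussian-like function centred between 3 and 4, and the product is larger than 13.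
At the time `t₂ = log 400` the product is smaller than 9; its limit is `2 π`.
-/

set_option autoImplicit false

open MeasureTheory Set Real
open scoped ENNReal NNReal

namespace Pool.Agent.Results.MP_31abd3_an.NotMonotone

/-- The polar function `f°(y) = inf { exp (-x y) / f x : f x > 0 }`. -/
noncomputable def polar (f : ℝ → ℝ) (y : ℝ) : ℝ :=
  ⨅ x : {x : ℝ // 0 < f x}, exp (-((x : ℝ) * y)) / f x

/-- The Fokker-Planck evolution (Ornstein-Uhlenbeck semigroup, dual form): `f_0 = f`, and for `t > 0`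
`f_t(x) = ∫ f(y) (2 π (1 - e^{-2t}))^{-1/2} exp (-(x - e^{-t} y)² / (2 (1 - e^{-2t}))) dy`. -/
noncomputable def evolve (f : ℝ → ℝ) (t x : ℝ) : ℝ :=
  if t = 0 then f x else ∫ y, f y * ((√(2 * π * (1 - exp (-2 * t))))⁻¹ *
    exp (-(x - exp (-t) * y) ^ 2 / (2 * (1 - exp (-2 * t)))))

/-- The functional volume product. -/
noncomputable def volumeProduct (f : ℝ → ℝ) : ℝ≥0∞ :=
  (∫⁻ x, ENNReal.ofReal (f x)) * ∫⁻ y, ENNReal.ofReal (polar f y)

/-- `0 < ∫ g < ∞` and `∫ |x| g < ∞`, and the barycenter of `g` is zero. -/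
def Centered (g : ℝ → ℝ) : Prop :=
  Integrable g ∧ 0 < ∫ x, g x ∧ Integrable (fun x => x * g x) ∧ ∫ x, x * g x = 0

/-- the set -/
def A (δ : ℝ) : Set ℝ := Icc (-40) (-40 + δ) ∪ Icc 30 40

lemma A_meas (δ : ℝ) : MeasurableSet (A δ) := measurableSet_Icc.union measurableSet_Icc

lemma A_abs {δ : ℝ} (hδ1 : δ ≤ 1) {x : ℝ} (hx : x ∈ A δ) : |x| ≤ 40 := by
  rw [abs_le]
  rcases hx with h | h
  · exact ⟨h.1, by linarith [h.2]⟩
  · exact ⟨by linarith [h.1], h.2⟩

lemma A_vol {δ : ℝ} (hδ0 : 0 ≤ δ) (hδ1 : δ ≤ 1) : volume (A δ) = ENNReal.ofReal (10 + δ) := by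
  rw [A, measure_union _ measurableSet_Icc, Real.volume_Icc, Real.volume_Icc,
    ← ENNReal.ofReal_add (by linarith) (by norm_num)]
  · congr 1; ring
  · rw [Set.disjoint_left]
    intro x hx hx'
    have := hx.2
    have := hx'.1
    linarith

/-- the function -/
noncomputable def F (δ : ℝ) : ℝ → ℝ := (A δ).indicator 1

lemma F_pos {δ x : ℝ} : 0 < F δ x ↔ x ∈ A δ := by
  rw [F]
  by_cases h : x ∈ A δ
  · simp [h]
  · simp [h]

lemma polar_F {δ : ℝ} (hδ0 : 0 ≤ δ) (hδ1 : δ ≤ 1) (y : ℝ) : polar (F δ) y = exp (-40 * |y|) := by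
  have hA : ∀ x ∈ A δ, F δ x = 1 := fun x hx => by simp [F, hx]
  have h40 : (40:ℝ) ∈ A δ := Or.inr ⟨by norm_num, le_rfl⟩
  have hm40 : (-40:ℝ) ∈ A δ := Or.inl ⟨le_rfl, by linarith⟩
  have : Nonempty {x : ℝ // 0 < F δ x} := ⟨⟨40, F_pos.2 h40⟩⟩
  have hbdd : BddBelow (range fun x : {x : ℝ // 0 < F δ x} => exp (-((x : ℝ) * y)) / F δ x) := by
    refine ⟨0, ?_⟩
    rintro _ ⟨x, rfl⟩
    exact div_nonneg (exp_pos _).le x.2.le
  apply le_antisymm
  · rcases le_total 0 y with hy | hy
    · refine (ciInf_le hbdd ⟨40, F_pos.2 h40⟩).trans ?_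
      simp only
      rw [hA _ h40, div_one, abs_of_nonneg hy]
      apply le_of_eq; congr 1; ring
    · refine (ciInf_le hbdd ⟨-40, F_pos.2 hm40⟩).trans ?_
      simp only
      rw [hA _ hm40, div_one, abs_of_nonpos hy]
      apply le_of_eq; congr 1; ring
  · apply le_ciInf
    rintro ⟨x, hx⟩
    have hxA := F_pos.1 hx
    simp only
    rw [hA x hxA, div_one]
    apply exp_le_exp.2
    have h1 : |x * y| ≤ 40 * |y| := by
      rw [abs_mul]
      exact mul_le_mul_of_nonneg_right (A_abs hδ1 hxA) (abs_nonneg y)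
    have h2 := le_abs_self (x * y)
    linarith

/-- the Gaussian kernel -/
noncomputable def ker (b v x y : ℝ) : ℝ := (√(2 * π * v))⁻¹ * exp (-(x - b * y) ^ 2 / (2 * v))

lemma ker_cont (b v x : ℝ) : Continuous (ker b v x) := by
  unfold ker; fun_prop

lemma ker_pos {b v : ℝ} (hv : 0 < v) (x y : ℝ) : 0 < ker b v x y := by
  unfold ker; positivity

/-- the evolution of `F` -/
noncomputable def E (δ b v x : ℝ) : ℝ := ∫ y in A δ, ker b v x y

lemma evolve_F {δ t : ℝ} (ht : t ≠ 0) (x : ℝ) :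
    evolve (F δ) t x = E δ (exp (-t)) (1 - exp (-2 * t)) x := by
  rw [evolve, if_neg ht, E, ← integral_indicator (A_meas δ)]
  congr 1
  ext y
  by_cases h : y ∈ A δ
  · simp [F, h, ker]
  · simp [F, h]

lemma ker_int (δ b v x : ℝ) :
    IntegrableOn (ker b v x) (A δ) := by
  rw [A, integrableOn_union]
  exact ⟨(ker_cont b v x).continuousOn.integrableOn_compact isCompact_Icc,
    (ker_cont b v x).continuousOn.integrableOn_compact isCompact_Icc⟩

lemma ker_eq (b v x y : ℝ) (hv : 0 ≤ v) :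
    ker b v x y = ProbabilityTheory.gaussianPDFReal (b * y) v.toNNReal x := by
  rw [ker, ProbabilityTheory.gaussianPDFReal_def]
  simp only [Real.coe_toNNReal _ hv]

/-- mass is preserved -/
lemma mass {δ : ℝ} (hδ0 : 0 ≤ δ) (hδ1 : δ ≤ 1) {b v : ℝ} (hv : 0 < v) :
    ∫⁻ x, ENNReal.ofReal (E δ b v x) = ENNReal.ofReal (10 + δ) := by
  have h1 : ∀ x, ENNReal.ofReal (E δ b v x) =
      ∫⁻ y in A δ, ProbabilityTheory.gaussianPDF (b * y) v.toNNReal x := by
    intro x
    rw [E, ofReal_integral_eq_lintegral_ofReal (ker_int δ b v x)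
      (Filter.Eventually.of_forall fun y => (ker_pos hv x y).le)]
    congr 1
    ext y
    rw [ProbabilityTheory.gaussianPDF, ker_eq _ _ _ _ hv.le]
  simp_rw [h1]
  rw [lintegral_lintegral_swap]
  · have h2 : ∀ y, ∫⁻ x, ProbabilityTheory.gaussianPDF (b * y) v.toNNReal x = 1 := fun y =>
      ProbabilityTheory.lintegral_gaussianPDF_eq_one _ (Real.toNNReal_pos.2 hv).ne'
    simp_rw [h2]
    rw [setLIntegral_one, A_vol hδ0 hδ1]
  · apply Measurable.aemeasurable
    unfold Function.uncurry
    unfold ProbabilityTheory.gaussianPDF ProbabilityTheory.gaussianPDFReal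
    fun_prop

lemma E_pos {δ : ℝ} (hδ0 : 0 ≤ δ) (hδ1 : δ ≤ 1) {b v : ℝ} (hv : 0 < v) (x : ℝ) : 0 < E δ b v x := by
  rw [E, setIntegral_pos_iff_support_of_nonneg_ae
    (Filter.Eventually.of_forall fun y => (ker_pos hv x y).le) (ker_int δ b v x)]
  have : Function.support (ker b v x) = univ := by
    ext y; simp [(ker_pos hv x y).ne']
  rw [this, univ_inter, A_vol hδ0 hδ1]
  exact ENNReal.ofReal_pos.2 (by linarith)

/-- completing the square -/
lemma square {v : ℝ} (hv : 0 < v) (x w m : ℝ) :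
    x * w - (x - m) ^ 2 / (2 * v) ≤ m * w + v * w ^ 2 / 2 := by
  have h : m * w + v * w ^ 2 / 2 - (x * w - (x - m) ^ 2 / (2 * v)) =
      (x - m - v * w) ^ 2 / (2 * v) := by
    field_simp; ring
  have : 0 ≤ (x - m - v * w) ^ 2 / (2 * v) := by positivity
  linarith

/-- lower bound for the polar at the time `t₁` -/
lemma polar_lower {δ : ℝ} (hδ0 : 0 ≤ δ) (hδ1 : δ ≤ 1) (hδ : δ * exp 8 ≤ 10 * exp (-6)) {v : ℝ}
    (hv : 0 < v) (hv1 : v ≤ 1) {w : ℝ} (hw : w ∈ Icc (-2 : ℝ) (-1)) :
    √(2 * π * v) / 20 * exp (5 / 2) ≤ polar (E δ (1 / 10) v) w := by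
  have : Nonempty {x : ℝ // 0 < E δ (1 / 10) v x} := ⟨⟨0, E_pos hδ0 hδ1 hv 0⟩⟩
  have hsq : 0 < √(2 * π * v) := by positivity
  apply le_ciInf
  rintro ⟨x, hx⟩
  simp only
  rw [le_div_iff₀ hx]
  -- upper bound for exp (x w) E x
  have hker : ∀ y, exp (x * w) * ker (1 / 10) v x y ≤
      (√(2 * π * v))⁻¹ * exp (y / 10 * w + w ^ 2 / 2) := by
    intro y
    unfold ker
    rw [mul_left_comm, ← exp_add]
    refine mul_le_mul_of_nonneg_left (exp_le_exp.2 ?_) (by positivity)
    have := square hv x w (1 / 10 * y)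
    have h2 : v * w ^ 2 / 2 ≤ w ^ 2 / 2 := by
      have : 0 ≤ w ^ 2 := sq_nonneg w
      nlinarith
    have h3 : -(x - 1 / 10 * y) ^ 2 / (2 * v) = -((x - 1 / 10 * y) ^ 2 / (2 * v)) := by ring
    rw [h3]
    have h4 : y / 10 * w = 1 / 10 * y * w := by ring
    rw [h4]
    linarith
  have hE1 : ∫ y in Icc (-40 : ℝ) (-40 + δ), exp (x * w) * ker (1 / 10) v x y ≤
      (√(2 * π * v))⁻¹ * exp (w ^ 2 / 2) * (10 * exp (3 * w)) := by
    calc ∫ y in Icc (-40 : ℝ) (-40 + δ), exp (x * w) * ker (1 / 10) v x y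
        ≤ ∫ _y in Icc (-40 : ℝ) (-40 + δ), (√(2 * π * v))⁻¹ * exp (w ^ 2 / 2) * exp (-4 * w) := by
          apply setIntegral_mono_on
          · exact ((continuous_const.mul (ker_cont _ _ _)).continuousOn).integrableOn_compact
              isCompact_Icc
          · exact (integrableOn_const (by simp))
          · exact measurableSet_Icc
          · intro y hy
            refine (hker y).trans ?_
            rw [mul_assoc (√(2 * π * v))⁻¹, ← exp_add]
            refine mul_le_mul_of_nonneg_left (exp_le_exp.2 ?_) (by positivity)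
            have h1 : -4 ≤ y / 10 := by linarith [hy.1]
            have h2 : w ≤ 0 := by linarith [hw.2]
            nlinarith
      _ = δ * ((√(2 * π * v))⁻¹ * exp (w ^ 2 / 2) * exp (-4 * w)) := by
          rw [setIntegral_const, smul_eq_mul, Measure.real, Real.volume_Icc,
            ENNReal.toReal_ofReal (by linarith)]
          congr 1; ring
      _ = (√(2 * π * v))⁻¹ * exp (w ^ 2 / 2) * (δ * exp (-4 * w)) := by ring
      _ ≤ (√(2 * π * v))⁻¹ * exp (w ^ 2 / 2) * (10 * exp (3 * w)) := by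
          have h1 : exp (-4 * w) ≤ exp 8 := exp_le_exp.2 (by linarith [hw.1])
          have h2 : exp (-6) ≤ exp (3 * w) := exp_le_exp.2 (by linarith [hw.1])
          have h3 : δ * exp (-4 * w) ≤ δ * exp 8 := mul_le_mul_of_nonneg_left h1 hδ0
          refine mul_le_mul_of_nonneg_left ?_ (by positivity)
          linarith
  have hE2 : ∫ y in Icc (30 : ℝ) 40, exp (x * w) * ker (1 / 10) v x y ≤
      (√(2 * π * v))⁻¹ * exp (w ^ 2 / 2) * (10 * exp (3 * w)) := by
    calc ∫ y in Icc (30 : ℝ) 40, exp (x * w) * ker (1 / 10) v x y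
        ≤ ∫ _y in Icc (30 : ℝ) 40, (√(2 * π * v))⁻¹ * exp (w ^ 2 / 2) * exp (3 * w) := by
          apply setIntegral_mono_on
          · exact ((continuous_const.mul (ker_cont _ _ _)).continuousOn).integrableOn_compact
              isCompact_Icc
          · exact (integrableOn_const (by simp))
          · exact measurableSet_Icc
          · intro y hy
            refine (hker y).trans ?_
            rw [mul_assoc (√(2 * π * v))⁻¹, ← exp_add]
            refine mul_le_mul_of_nonneg_left (exp_le_exp.2 ?_) (by positivity)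
            have h1 : 3 ≤ y / 10 := by linarith [hy.1]
            have h2 : w ≤ 0 := by linarith [hw.2]
            nlinarith
      _ = 10 * ((√(2 * π * v))⁻¹ * exp (w ^ 2 / 2) * exp (3 * w)) := by
          rw [setIntegral_const, smul_eq_mul, Measure.real, Real.volume_Icc,
            ENNReal.toReal_ofReal (by norm_num)]
          norm_num
      _ = _ := by ring
  have hsum : exp (x * w) * E δ (1 / 10) v x ≤
      (√(2 * π * v))⁻¹ * exp (w ^ 2 / 2) * (20 * exp (3 * w)) := by
    rw [E, ← integral_const_mul, A, setIntegral_union]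
    · have h20 : (√(2 * π * v))⁻¹ * exp (w ^ 2 / 2) * (20 * exp (3 * w)) =
        (√(2 * π * v))⁻¹ * exp (w ^ 2 / 2) * (10 * exp (3 * w)) +
        (√(2 * π * v))⁻¹ * exp (w ^ 2 / 2) * (10 * exp (3 * w)) := by ring
      rw [h20]
      exact add_le_add hE1 hE2
    · rw [Set.disjoint_left]
      intro y hy hy'
      have := hy.2
      have := hy'.1
      linarith
    · exact measurableSet_Icc
    · exact ((continuous_const.mul (ker_cont _ _ _)).continuousOn).integrableOn_compact
        isCompact_Icc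
    · exact ((continuous_const.mul (ker_cont _ _ _)).continuousOn).integrableOn_compact
        isCompact_Icc
  have hexp : exp (5 / 2) * (exp (w ^ 2 / 2) * exp (3 * w)) ≤ 1 := by
    rw [← exp_add, ← exp_add, exp_le_one_iff]
    have h1 := hw.1
    have h2 := hw.2
    nlinarith
  have hE3 : E δ (1 / 10) v x ≤ exp (-(x * w)) * ((√(2 * π * v))⁻¹ * exp (w ^ 2 / 2) *
      (20 * exp (3 * w))) := by
    calc E δ (1 / 10) v x = exp (-(x * w)) * (exp (x * w) * E δ (1 / 10) v x) := by
          rw [← mul_assoc, ← exp_add]; simp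
      _ ≤ _ := by gcongr
  calc √(2 * π * v) / 20 * exp (5 / 2) * E δ (1 / 10) v x
      ≤ √(2 * π * v) / 20 * exp (5 / 2) * (exp (-(x * w)) * ((√(2 * π * v))⁻¹ *
        exp (w ^ 2 / 2) * (20 * exp (3 * w)))) := by gcongr
    _ = exp (-(x * w)) * (exp (5 / 2) * (exp (w ^ 2 / 2) * exp (3 * w))) := by
        field_simp
    _ ≤ exp (-(x * w)) * 1 := by gcongr
    _ = exp (-(x * w)) := mul_one _

/-- upper bound for the polar at the time `t₂` -/
lemma polar_upper {δ : ℝ} (hδ0 : 0 ≤ δ) (hδ1 : δ ≤ 1) {v : ℝ}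
    (hv : 159999 / 160000 ≤ v) (hv1 : v ≤ 1) (w : ℝ) :
    polar (E δ (1 / 400) v) w ≤ √(2 * π) / 10 * (exp (1 / 10) * exp (-(2 / 5) * w ^ 2)) := by
  have hv0 : 0 < v := by linarith
  have hbdd : BddBelow (range fun x : {x : ℝ // 0 < E δ (1 / 400) v x} =>
      exp (-((x : ℝ) * w)) / E δ (1 / 400) v x) := by
    refine ⟨0, ?_⟩
    rintro _ ⟨x, rfl⟩
    exact div_nonneg (exp_pos _).le x.2.le
  refine (ciInf_le hbdd ⟨w, E_pos hδ0 hδ1 hv0 w⟩).trans ?_
  simp only
  have hE : 10 * ((√(2 * π))⁻¹ * exp (-(|w| + 1 / 10) ^ 2 / (2 * v))) ≤ E δ (1 / 400) v w := by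
    calc 10 * ((√(2 * π))⁻¹ * exp (-(|w| + 1 / 10) ^ 2 / (2 * v)))
        ≤ (10 + δ) * ((√(2 * π))⁻¹ * exp (-(|w| + 1 / 10) ^ 2 / (2 * v))) := by
          gcongr
          linarith
      _ = ∫ _y in A δ, (√(2 * π))⁻¹ * exp (-(|w| + 1 / 10) ^ 2 / (2 * v)) := by
          rw [setIntegral_const, smul_eq_mul, Measure.real, A_vol hδ0 hδ1,
            ENNReal.toReal_ofReal (by linarith)]
      _ ≤ E δ (1 / 400) v w := by
          apply setIntegral_mono_on
          · apply integrableOn_const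
            · rw [A_vol hδ0 hδ1]; exact ENNReal.ofReal_ne_top
            · exact enorm_ne_top
          · exact ker_int δ _ _ _
          · exact A_meas δ
          · intro y hy
            unfold ker
            have h1 : √(2 * π * v) ≤ √(2 * π) := by
              apply Real.sqrt_le_sqrt
              have := Real.pi_pos
              nlinarith
            have h2 : (w - 1 / 400 * y) ^ 2 ≤ (|w| + 1 / 10) ^ 2 := by
              rw [← sq_abs (w - 1 / 400 * y)]
              apply pow_le_pow_left₀ (abs_nonneg _)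
              calc |w - 1 / 400 * y| ≤ |w| + |1 / 400 * y| := abs_sub _ _
                _ ≤ |w| + 1 / 10 := by
                    rw [abs_mul, abs_of_pos (by norm_num : (0:ℝ) < 1 / 400)]
                    have := A_abs hδ1 hy
                    linarith
            gcongr
  have hpos : 0 < 10 * ((√(2 * π))⁻¹ * exp (-(|w| + 1 / 10) ^ 2 / (2 * v))) := by positivity
  calc exp (-(w * w)) / E δ (1 / 400) v w
      ≤ exp (-(w * w)) / (10 * ((√(2 * π))⁻¹ * exp (-(|w| + 1 / 10) ^ 2 / (2 * v)))) := by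
        gcongr
    _ = √(2 * π) / 10 * exp (-(w * w) + (|w| + 1 / 10) ^ 2 / (2 * v)) := by
        have h5 : exp (-(w * w) + (|w| + 1 / 10) ^ 2 / (2 * v)) =
            exp (-(w * w)) * (exp (-(|w| + 1 / 10) ^ 2 / (2 * v)))⁻¹ := by
          rw [← exp_neg, ← exp_add]; congr 1; ring
        rw [h5]
        field_simp
    _ ≤ √(2 * π) / 10 * (exp (1 / 10) * exp (-(2 / 5) * w ^ 2)) := by
        rw [← exp_add]
        refine mul_le_mul_of_nonneg_left (exp_le_exp.2 ?_) (by positivity)
        have h6 : (|w| + 1 / 10) ^ 2 / (2 * v) ≤ (|w| + 1 / 10) ^ 2 * (5001 / 10000) := by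
          rw [div_eq_mul_inv]
          gcongr
          rw [inv_le_comm₀ (by positivity) (by norm_num)]
          norm_num
          linarith
        have h7 : w * w = |w| ^ 2 := by rw [sq_abs]; ring
        have h8 : w ^ 2 = |w| ^ 2 := by rw [sq_abs]
        rw [h7, h8]
        nlinarith [sq_nonneg (|w| - 1), abs_nonneg w]

lemma exp_abs_le {c : ℝ} (hc : 2 ≤ c) (y : ℝ) : exp (-c * |y|) ≤ (1 + y ^ 2)⁻¹ := by
  rw [show -c * |y| = -(c * |y|) by ring, exp_neg]
  apply inv_anti₀ (by positivity)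
  have h1 := Real.quadratic_le_exp_of_nonneg (show 0 ≤ c * |y| by positivity)
  have h2 : y ^ 2 = |y| ^ 2 := by rw [sq_abs]
  have h3 : (0:ℝ) ≤ |y| := abs_nonneg y
  rw [h2]
  have h4 : 4 ≤ c ^ 2 := by nlinarith
  have h5 : 4 * |y| ^ 2 ≤ c ^ 2 * |y| ^ 2 := by gcongr
  have h6 : 0 ≤ c * |y| := by positivity
  nlinarith

lemma centered_exp : Centered (fun y => exp (-40 * |y|)) := by
  have hint : Integrable (fun y : ℝ => exp (-40 * |y|)) := by
    refine Integrable.mono' integrable_inv_one_add_sq (by fun_prop) ?_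
    refine Filter.Eventually.of_forall fun y => ?_
    rw [norm_eq_abs, abs_of_pos (exp_pos _)]
    exact exp_abs_le (by norm_num) y
  refine ⟨hint, ?_, ?_, ?_⟩
  · rw [integral_pos_iff_support_of_nonneg (fun y => (exp_pos _).le) hint]
    have : Function.support (fun y : ℝ => exp (-40 * |y|)) = univ := by
      ext y; simp [(exp_pos _).ne']
    rw [this]; simp
  · refine Integrable.mono' integrable_inv_one_add_sq (by fun_prop) ?_
    refine Filter.Eventually.of_forall fun y => ?_
    rw [norm_eq_abs, abs_mul, abs_of_pos (exp_pos (-40 * |y|))]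
    refine le_trans ?_ (exp_abs_le (c := 39) (by norm_num) y)
    calc |y| * exp (-40 * |y|) ≤ exp |y| * exp (-40 * |y|) := by
          gcongr
          have := add_one_le_exp |y|
          linarith
      _ = exp (-39 * |y|) := by rw [← exp_add]; congr 1; ring
  · have h := integral_neg_eq_self (fun y : ℝ => y * exp (-40 * |y|)) volume
    simp only [abs_neg, neg_mul] at h
    rw [integral_neg] at h
    have h2 : ∫ y : ℝ, y * exp (-(40 * |y|)) = 0 := by linarith
    simpa only [neg_mul] using h2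

lemma numeric : √(2 * π) / 10 * (exp (1 / 10) * √(π / (2 / 5))) <
    √(2 * π * (99 / 100)) / 20 * exp (5 / 2) := by
  have hpi := Real.pi_pos
  have hs : 0 < √(2 * π) := by positivity
  have h1 : √(2 * π) * (99 / 100) ≤ √(2 * π * (99 / 100)) := by
    rw [Real.sqrt_mul (show 0 ≤ 2 * π by positivity) (99 / 100)]
    gcongr
    apply Real.le_sqrt_of_sq_le
    norm_num
  have h2 : √(π / (2 / 5)) ≤ 2.83 := by
    rw [Real.sqrt_le_left (by norm_num)]
    have := Real.pi_lt_d2
    rw [div_le_iff₀ (by norm_num)]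
    linarith
  have h3 : exp (1 / 10) ≤ 10 / 9 := by
    have h := Real.add_one_le_exp (-(1 / 10 : ℝ))
    rw [exp_neg] at h
    have hp := exp_pos (1 / 10 : ℝ)
    rw [le_inv_comm₀ (by norm_num) hp] at h
    refine h.trans ?_
    norm_num
  have h4 : 7.38 ≤ exp (5 / 2) := by
    have h5 : exp (2 : ℝ) ≤ exp (5 / 2) := exp_le_exp.2 (by norm_num)
    have h6 : exp (2 : ℝ) = exp 1 * exp 1 := by rw [← exp_add]; norm_num
    have h7 := Real.exp_one_gt_d9
    nlinarith
  have h8 : exp (1 / 10) * √(π / (2 / 5)) ≤ 10 / 9 * 2.83 := by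
    gcongr
  calc √(2 * π) / 10 * (exp (1 / 10) * √(π / (2 / 5))) ≤ √(2 * π) / 10 * (10 / 9 * 2.83) := by
        gcongr
    _ < √(2 * π) * (99 / 100) / 20 * 7.38 := by nlinarith
    _ ≤ √(2 * π * (99 / 100)) / 20 * exp (5 / 2) := by gcongr

/-- **The volume product is not nondecreasing along the Fokker-Planck flow.** -/
theorem result : ∃ f : ℝ → ℝ, Measurable f ∧ (∀ x, 0 ≤ f x) ∧ Integrable f ∧ 0 < ∫ x, f x ∧
    Centered (polar f) ∧
    ∃ t₁ t₂ : ℝ, 0 ≤ t₁ ∧ t₁ < t₂ ∧
      volumeProduct (evolve f t₂) < volumeProduct (evolve f t₁) := by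
  set δ : ℝ := 10 * exp (-14) with hδdef
  have hδ0 : 0 ≤ δ := by positivity
  have hδ1 : δ ≤ 1 := by
    have h := add_one_le_exp (14 : ℝ)
    rw [hδdef, exp_neg]
    have : (exp 14)⁻¹ ≤ (15 : ℝ)⁻¹ := inv_anti₀ (by norm_num) (by linarith)
    linarith
  have hδ : δ * exp 8 ≤ 10 * exp (-6) := by
    rw [hδdef, mul_assoc, ← exp_add]; norm_num
  have hFi : Integrable (F δ) := by
    rw [F, integrable_indicator_iff (A_meas δ)]
    have : (1 : ℝ → ℝ) = fun _ => (1:ℝ) := rfl
    rw [this]
    apply integrableOn_const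
    · rw [A_vol hδ0 hδ1]; exact ENNReal.ofReal_ne_top
    · exact enorm_ne_top
  have hpol : polar (F δ) = fun y => exp (-40 * |y|) := funext fun y => polar_F hδ0 hδ1 y
  refine ⟨F δ, measurable_one.indicator (A_meas δ), fun x => ?_, hFi, ?_, ?_, Real.log 10,
    Real.log 400, Real.log_nonneg (by norm_num), Real.log_lt_log (by norm_num) (by norm_num), ?_⟩
  · exact indicator_nonneg (fun _ _ => zero_le_one) x
  · rw [F, integral_indicator_one (A_meas δ), Measure.real, A_vol hδ0 hδ1,
      ENNReal.toReal_ofReal (by linarith)]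
    linarith
  · rw [hpol]; exact centered_exp
  · have e1 : exp (-Real.log 10) = 1 / 10 := by
      rw [exp_neg, exp_log (by norm_num)]; norm_num
    have e2 : exp (-Real.log 400) = 1 / 400 := by
      rw [exp_neg, exp_log (by norm_num)]; norm_num
    have e3 : 1 - exp (-2 * Real.log 10) = 99 / 100 := by
      have : exp (-2 * Real.log 10) = exp (-Real.log 10) * exp (-Real.log 10) := by
        rw [← exp_add]; congr 1; ring
      rw [this, e1]; norm_num
    have e4 : 1 - exp (-2 * Real.log 400) = 159999 / 160000 := by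
      have : exp (-2 * Real.log 400) = exp (-Real.log 400) * exp (-Real.log 400) := by
        rw [← exp_add]; congr 1; ring
      rw [this, e2]; norm_num
    have f1 : evolve (F δ) (Real.log 10) = E δ (1 / 10) (99 / 100) := by
      funext x
      rw [evolve_F (Real.log_pos (by norm_num)).ne', e1, e3]
    have f2 : evolve (F δ) (Real.log 400) = E δ (1 / 400) (159999 / 160000) := by
      funext x
      rw [evolve_F (Real.log_pos (by norm_num)).ne', e2, e4]
    rw [f1, f2, volumeProduct, volumeProduct, mass hδ0 hδ1 (by norm_num),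
      mass hδ0 hδ1 (by norm_num)]
    refine ENNReal.mul_lt_mul_right (ENNReal.ofReal_pos.2 (by linarith)).ne'
      ENNReal.ofReal_ne_top ?_
    calc ∫⁻ y, ENNReal.ofReal (polar (E δ (1 / 400) (159999 / 160000)) y)
        ≤ ∫⁻ y, ENNReal.ofReal (√(2 * π) / 10 * (exp (1 / 10) * exp (-(2 / 5) * y ^ 2))) := by
          apply lintegral_mono
          intro y
          exact ENNReal.ofReal_le_ofReal (polar_upper hδ0 hδ1 le_rfl (by norm_num) y)
      _ = ENNReal.ofReal (√(2 * π) / 10 * (exp (1 / 10) * √(π / (2 / 5)))) := by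
          rw [← ofReal_integral_eq_lintegral_ofReal]
          · congr 1
            rw [integral_const_mul, integral_const_mul, integral_gaussian]
          · exact ((integrable_exp_neg_mul_sq (by norm_num)).const_mul _).const_mul _
          · exact Filter.Eventually.of_forall fun y => by positivity
      _ < ENNReal.ofReal (√(2 * π * (99 / 100)) / 20 * exp (5 / 2)) :=
          (ENNReal.ofReal_lt_ofReal_iff (by positivity)).2 numeric
      _ = ∫⁻ _y in Icc (-2 : ℝ) (-1), ENNReal.ofReal (√(2 * π * (99 / 100)) / 20 * exp (5 / 2)) := by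
          rw [setLIntegral_const, Real.volume_Icc]; norm_num
      _ ≤ ∫⁻ y in Icc (-2 : ℝ) (-1), ENNReal.ofReal (polar (E δ (1 / 10) (99 / 100)) y) := by
          apply setLIntegral_mono' measurableSet_Icc
          intro y hy
          exact ENNReal.ofReal_le_ofReal (polar_lower hδ0 hδ1 hδ (by norm_num) (by norm_num) hy)
      _ ≤ ∫⁻ y, ENNReal.ofReal (polar (E δ (1 / 10) (99 / 100)) y) := setLIntegral_le_lintegral _ _

end Pool.Agent.Results.MP_31abd3_an.NotMonotone
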